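import Mathlib

/-!
# Menger's theorem (vertex version, for sets), with walks as lists

The proof is the short one of Goering, by induction on the number of arcs of a digraph.
-/

set_option autoImplicit false

namespace Pool.Agent.Lib.Menger

variable {V : Type}

/-- `Wk r x y l`: the list `l` is a walk from `x` to `y` along the relation `r`. -/
inductive Wk (r : V → V → Prop) : V → V → List V → Prop
  | one (x : V) : Wk r x x [x]
  | cons {x y z : V} {l : List V} : r x y → Wk r y z l → Wk r x z (x :: l)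

namespace Wk

variable {r : V → V → Prop} {x y z : V} {l : List V}

theorem eq_cons (h : Wk r x y l) : ∃ t, l = x :: t := by
  cases h with
  | one => exact ⟨[], rfl⟩
  | cons _ _ => exact ⟨_, rfl⟩

theorem eq_concat (h : Wk r x y l) : ∃ t, l = t ++ [y] := by
  induction h with
  | one x => exact ⟨[], rfl⟩
  | cons _ _ ih => obtain ⟨t, rfl⟩ := ih; exact ⟨_ :: t, rfl⟩

theorem start_mem (h : Wk r x y l) : x ∈ l := by
  obtain ⟨t, rfl⟩ := h.eq_cons; simp

theorem end_mem (h : Wk r x y l) : y ∈ l := by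
  obtain ⟨t, rfl⟩ := h.eq_concat; simp

theorem mono {r' : V → V → Prop} (h : Wk r x y l)
    (hr : ∀ a ∈ l, ∀ b ∈ l, r a b → r' a b) : Wk r' x y l := by
  induction h with
  | one x => exact one x
  | cons h1 h2 ih =>
    exact cons (hr _ (by simp) _ (by simp [h2.start_mem]) h1)
      (ih fun a ha b hb => hr a (by simp [ha]) b (by simp [hb]))

theorem append {l' : List V} (h : Wk r x y l) (h' : Wk r y z (y :: l')) :
    Wk r x z (l ++ l') := by
  induction h with
  | one x => exact h'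
  | cons h1 _ ih => exact cons h1 (ih h')

theorem append' {u : V} {l' : List V} (h : Wk r x y l) (e : r y u) (h' : Wk r u z l') :
    Wk r x z (l ++ l') := h.append (cons e h')

theorem head_eq {t : List V} {v : V} (h : Wk r x y (v :: t)) : v = x := by
  obtain ⟨t', h'⟩ := h.eq_cons
  exact (List.cons.inj h').1

theorem split {l₁ l₂ : List V} {v : V} (h : Wk r x z (l₁ ++ v :: l₂)) :
    Wk r x v (l₁ ++ [v]) ∧ Wk r v z (v :: l₂) := by
  induction l₁ generalizing x with
  | nil => obtain rfl := h.head_eq; exact ⟨one _, h⟩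
  | cons a l₁ ih =>
    generalize hL : a :: l₁ ++ v :: l₂ = L at h
    cases h with
    | one => simp at hL
    | cons h1 h2 =>
      obtain ⟨rfl, rfl⟩ := List.cons.inj hL
      exact ⟨cons h1 (ih h2).1, (ih h2).2⟩

theorem reverse (h : Wk r x y l) : Wk (fun a b => r b a) y x l.reverse := by
  induction h with
  | one x => exact one x
  | cons h1 _ ih => rw [List.reverse_cons]; exact ih.append' h1 (one _)

theorem isChain (h : Wk r x y l) : l.IsChain r := by
  induction h with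
  | one x => simp
  | cons h1 h2 ih =>
    obtain ⟨t, rfl⟩ := h2.eq_cons
    exact List.isChain_cons_cons.2 ⟨h1, ih⟩

theorem of_isChain {M : List V} (h : (x :: (M ++ [y])).IsChain r) : Wk r x y (x :: (M ++ [y])) := by
  induction M generalizing x with
  | nil => exact cons (by simpa using h) (one _)
  | cons a M ih =>
    rw [List.cons_append, List.isChain_cons_cons] at h
    exact cons h.1 (ih h.2)

/-- The initial part of a walk, up to its first vertex with a property. -/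
theorem first (h : Wk r x y l) (P : V → Prop) (hP : ∃ v ∈ l, P v) :
    ∃ v l₁ l₂, l = l₁ ++ v :: l₂ ∧ P v ∧ (∀ u ∈ l₁, ¬P u) ∧ Wk r x v (l₁ ++ [v]) ∧
      Wk r v y (v :: l₂) := by
  have : ∃ v l₁ l₂, l = l₁ ++ v :: l₂ ∧ P v ∧ ∀ u ∈ l₁, ¬P u := by
    clear h
    induction l with
    | nil => simp at hP
    | cons a l ih =>
      by_cases ha : P a
      · exact ⟨a, [], l, rfl, ha, by simp⟩
      · obtain ⟨v, l₁, l₂, rfl, h1, h2⟩ := ih (by simpa [ha] using hP)
        exact ⟨v, a :: l₁, l₂, rfl, h1, by simpa [ha] using h2⟩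
  obtain ⟨v, l₁, l₂, rfl, h1, h2⟩ := this
  exact ⟨v, l₁, l₂, rfl, h1, h2, h.split⟩

/-- The final part of a walk, from its last vertex with a property. -/
theorem last (h : Wk r x y l) (P : V → Prop) (hP : ∃ v ∈ l, P v) :
    ∃ v l₁ l₂, l = l₁ ++ v :: l₂ ∧ P v ∧ (∀ u ∈ l₂, ¬P u) ∧ Wk r x v (l₁ ++ [v]) ∧
      Wk r v y (v :: l₂) := by
  obtain ⟨v, l₁, l₂, e, h1, h2, -, -⟩ := h.reverse.first P (by simpa using hP)
  have e' : l = l₂.reverse ++ v :: l₁.reverse := by
    rw [← l.reverse_reverse, e]; simp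
  subst e'
  exact ⟨v, _, _, rfl, h1, by simpa using h2, h.split⟩

/-- Every walk contains a path with the same ends. -/
theorem exists_nodup (h : Wk r x y l) : ∃ l', Wk r x y l' ∧ l'.Nodup ∧ l' ⊆ l := by
  induction h with
  | one x => exact ⟨[x], one x, by simp, by simp⟩
  | @cons x y z l h1 h2 ih =>
    obtain ⟨l', h3, h4, h5⟩ := ih
    by_cases hx : x ∈ l'
    · obtain ⟨l₁, l₂, rfl⟩ := List.append_of_mem hx
      refine ⟨x :: l₂, h3.split.2, h4.sublist (by simp), fun v hv => ?_⟩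
      exact List.mem_cons_of_mem _ (h5 (by simp only [List.mem_append]; exact Or.inr hv))
    · exact ⟨x :: l', cons h1 h3, List.nodup_cons.2 ⟨hx, h4⟩, List.cons_subset_cons _ h5⟩

/-- A walk that starts in a set and ends outside it has an arc leaving the set. -/
theorem exists_cross (h : Wk r x y l) (P : V → Prop) (hx : P x) (hy : ¬P y) :
    ∃ a ∈ l, ∃ b ∈ l, r a b ∧ P a ∧ ¬P b := by
  induction h with
  | one x => exact (hy hx).elim
  | @cons x y z l h1 h2 ih =>
    by_cases h3 : P y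
    · obtain ⟨a, ha, b, hb, h4⟩ := ih h3 hy
      exact ⟨a, by simp [ha], b, by simp [hb], h4⟩
    · exact ⟨x, by simp, y, by simp [h2.start_mem], h1, hx, h3⟩

end Wk

variable [DecidableEq V]

theorem menger_aux (E : Finset (V × V)) : ∀ (_ : ∀ e ∈ E, e.1 ≠ e.2) (A B : Finset V) (s : ℕ)
    (_ : ∀ S : Finset V, S.card < s →
      ∃ a ∈ A, ∃ b ∈ B, ∃ l, Wk (fun x y => (x, y) ∈ E) a b l ∧ ∀ v ∈ l, v ∉ S),
    ∃ p : Fin s → List V, (∀ i, ∃ a ∈ A, ∃ b ∈ B, Wk (fun x y => (x, y) ∈ E) a b (p i)) ∧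
      ∀ i j, ∀ v ∈ p i, v ∈ p j → i = j := by
  induction E using Finset.strongInduction with
  | H E ih =>
  intro hE A B s h
  rcases E.eq_empty_or_nonempty with rfl | ⟨⟨x, y⟩, hxy⟩
  · have hs : s ≤ (A ∩ B).card := by
      by_contra hlt
      obtain ⟨a, ha, b, hb, l, h1, h2⟩ := h _ (not_le.1 hlt)
      cases h1 with
      | one => exact h2 a (by simp) (by simp [ha, hb])
      | cons h3 _ => simp at h3
    let f : Fin s → ↥(A ∩ B) := fun i => (A ∩ B).equivFin.symm (Fin.castLE hs i)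
    have hf : Function.Injective f :=
      (A ∩ B).equivFin.symm.injective.comp (Fin.castLE_injective hs)
    refine ⟨fun i => [f i], fun i => ⟨f i, (Finset.mem_inter.1 (f i).2).1, f i,
      (Finset.mem_inter.1 (f i).2).2, Wk.one _⟩, fun i j v hi hj => hf (Subtype.ext ?_)⟩
    simp only [List.mem_singleton] at hi hj
    exact hi.symm.trans hj
  have hne : x ≠ y := hE _ hxy
  have hss : E.erase (x, y) ⊂ E := Finset.erase_ssubset hxy
  have ih' := ih _ hss fun e he => hE e (Finset.mem_of_mem_erase he)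
  have up : ∀ {a b l}, Wk (fun u v => (u, v) ∈ E.erase (x, y)) a b l →
      Wk (fun u v => (u, v) ∈ E) a b l :=
    fun h => h.mono fun _ _ _ _ h => Finset.mem_of_mem_erase h
  by_cases h' : ∀ S : Finset V, S.card < s → ∃ a ∈ A, ∃ b ∈ B, ∃ l,
      Wk (fun u v => (u, v) ∈ E.erase (x, y)) a b l ∧ ∀ v ∈ l, v ∉ S
  · obtain ⟨p, h1, h2⟩ := ih' A B s h'
    refine ⟨p, fun i => ?_, h2⟩
    obtain ⟨a, ha, b, hb, h3⟩ := h1 i
    exact ⟨a, ha, b, hb, up h3⟩
  push Not at h'
  obtain ⟨S, hS, hsep⟩ := h'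
  have hit : ∀ t, t = x ∨ t = y → ∀ a ∈ A, ∀ b ∈ B, ∀ l, Wk (fun u v => (u, v) ∈ E) a b l →
      ∃ v ∈ l, v ∈ insert t S := by
    intro t ht a ha b hb l hl
    by_cases htl : t ∈ l
    · exact ⟨t, htl, by simp⟩
    · obtain ⟨v, hv, hvS⟩ := hsep a ha b hb l (hl.mono fun u hu v hv huv => by
        refine Finset.mem_erase.2 ⟨fun e => htl ?_, huv⟩
        obtain ⟨rfl, rfl⟩ := Prod.mk.inj e
        rcases ht with rfl | rfl <;> assumption)
      exact ⟨v, hv, by simp [hvS]⟩
  have hcard : ∀ t, t = x ∨ t = y → t ∉ S ∧ (insert t S).card = s := by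
    intro t ht
    have h1 : s ≤ (insert t S).card := by
      by_contra hlt
      obtain ⟨a, ha, b, hb, l, h1, h2⟩ := h _ (not_le.1 hlt)
      obtain ⟨v, hv, hv'⟩ := hit t ht a ha b hb l h1
      exact h2 v hv hv'
    have h2 : t ∉ S := fun htS => by rw [Finset.insert_eq_of_mem htS] at h1; omega
    exact ⟨h2, by rw [Finset.card_insert_of_notMem h2] at h1 ⊢; omega⟩
  obtain ⟨hxS, hxc⟩ := hcard x (Or.inl rfl)
  obtain ⟨hyS, hyc⟩ := hcard y (Or.inr rfl)
  have down1 : ∀ {a b l}, Wk (fun u v => (u, v) ∈ E) a b (l ++ [b]) → x ∉ l →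
      Wk (fun u v => (u, v) ∈ E.erase (x, y)) a b (l ++ [b]) := by
    intro a b l
    induction l generalizing a with
    | nil => intro h _; obtain rfl := h.head_eq; exact Wk.one _
    | cons c l ih2 =>
      intro h hx
      generalize hL : c :: l ++ [b] = L at h
      cases h with
      | one => simp at hL
      | cons h1 h2 =>
        obtain ⟨rfl, rfl⟩ := List.cons.inj hL
        refine Wk.cons (Finset.mem_erase.2 ⟨fun e => hx ?_, h1⟩) (ih2 h2 fun h => hx (by simp [h]))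
        simp [(Prod.mk.inj e).1]
  have down2 : ∀ {a b l}, Wk (fun u v => (u, v) ∈ E) a b (a :: l) → y ∉ l →
      Wk (fun u v => (u, v) ∈ E.erase (x, y)) a b (a :: l) := by
    intro a b l
    induction l generalizing a with
    | nil =>
      intro h _
      cases h with
      | one => exact Wk.one _
      | cons _ h2 => exact absurd h2.start_mem (by simp)
    | cons c l ih2 =>
      intro h hy
      cases h with
      | cons h1 h2 =>
        obtain rfl := h2.head_eq
        refine Wk.cons (Finset.mem_erase.2 ⟨fun e => hy ?_, h1⟩) (ih2 h2 fun h => hy (by simp [h]))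
        simp [(Prod.mk.inj e).2]
  obtain ⟨p, hp1, hp2⟩ := ih' A (insert x S) s fun T hT => by
    obtain ⟨a, ha, b, hb, l, h1, h2⟩ := h T hT
    obtain ⟨v, l₁, l₂, rfl, h3, h4, h5, -⟩ := h1.first _ (hit x (Or.inl rfl) a ha b hb l h1)
    exact ⟨a, ha, v, h3, _, down1 h5 fun hx => h4 x hx (by simp), fun u hu => h2 u (by
      simp only [List.mem_append, List.mem_cons, List.not_mem_nil, or_false] at hu ⊢; tauto)⟩
  obtain ⟨q, hq1, hq2⟩ := ih' (insert y S) B s fun T hT => by
    obtain ⟨a, ha, b, hb, l, h1, h2⟩ := h T hT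
    obtain ⟨v, l₁, l₂, rfl, h3, h4, -, h5⟩ := h1.last _ (hit y (Or.inr rfl) a ha b hb l h1)
    exact ⟨v, h3, b, hb, _, down2 h5 fun hy => h4 y hy (by simp), fun u hu => h2 u (by
      simp only [List.mem_append] at hu ⊢; tauto)⟩
  have hp : ∀ i, ∃ t l, (∃ a ∈ A, Wk (fun u v => (u, v) ∈ E.erase (x, y)) a t (l ++ [t])) ∧
      t ∈ insert x S ∧ (∀ u ∈ l, u ∉ insert x S) ∧ ∀ u ∈ l ++ [t], u ∈ p i := fun i => by
    obtain ⟨a, ha, b, hb, h1⟩ := hp1 i
    obtain ⟨v, l₁, l₂, e, h3, h4, h5, -⟩ := h1.first (· ∈ insert x S) ⟨b, h1.end_mem, hb⟩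
    exact ⟨v, l₁, ⟨a, ha, h5⟩, h3, h4, fun u hu => by
      rw [e]; simp only [List.mem_append, List.mem_cons, List.not_mem_nil, or_false] at hu ⊢; tauto⟩
  have hq : ∀ i, ∃ t l, (∃ b ∈ B, Wk (fun u v => (u, v) ∈ E.erase (x, y)) t b (t :: l)) ∧
      t ∈ insert y S ∧ (∀ u ∈ l, u ∉ insert y S) ∧ ∀ u ∈ t :: l, u ∈ q i := fun i => by
    obtain ⟨a, ha, b, hb, h1⟩ := hq1 i
    obtain ⟨v, l₁, l₂, e, h3, h4, -, h5⟩ := h1.last (· ∈ insert y S) ⟨a, h1.start_mem, ha⟩
    exact ⟨v, l₂, ⟨b, hb, h5⟩, h3, h4, fun u hu => by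
      rw [e]; simp only [List.mem_append] at hu ⊢; tauto⟩
  choose t P hP1 hP2 hP3 hP4 using hp
  choose t' Q hQ1 hQ2 hQ3 hQ4 using hq
  have tinj : Function.Injective t := fun i j e =>
    hp2 i j (t i) (hP4 i _ (by simp)) (hP4 j _ (by simp [e]))
  have tsurj : ∀ u ∈ insert y S, ∃ j, t' j = u := by
    have tinj' : Function.Injective t' := fun i j e =>
      hq2 i j (t' i) (hQ4 i _ (by simp)) (hQ4 j _ (by simp [e]))
    have : Finset.univ.image t' = insert y S := by
      refine Finset.eq_of_subset_of_card_le (fun u hu => ?_) ?_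
      · obtain ⟨j, -, rfl⟩ := Finset.mem_image.1 hu; exact hQ2 j
      · rw [Finset.card_image_of_injective _ tinj', hyc]; simp
    intro u hu
    rw [← this] at hu
    obtain ⟨j, -, rfl⟩ := Finset.mem_image.1 hu
    exact ⟨j, rfl⟩
  have hσ : ∀ i, ∃ j, (t i = x ∧ t' j = y) ∨ (t i ∈ S ∧ t' j = t i) := fun i => by
    rcases Finset.mem_insert.1 (hP2 i) with e | e
    · obtain ⟨j, hj⟩ := tsurj y (by simp); exact ⟨j, Or.inl ⟨e, hj⟩⟩
    · obtain ⟨j, hj⟩ := tsurj (t i) (by simp [e]); exact ⟨j, Or.inr ⟨e, hj⟩⟩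
  choose σ hσ using hσ
  have hmeet : ∀ i j v, v ∈ P i ++ [t i] → v ∈ t' j :: Q j → v ∈ S ∧ v = t i ∧ v = t' j := by
    intro i j v h1 h2
    have hvS : v ∈ S := by
      by_contra hvS
      obtain ⟨a, ha, h3⟩ := hP1 i
      obtain ⟨b, hb, h4⟩ := hQ1 j
      obtain ⟨v₁, l₁, l₂, e, rfl, h5, h6, -⟩ := h3.first (· = v) ⟨v, h1, rfl⟩
      obtain ⟨v₂, m₁, m₂, e', rfl, h7, -, h8⟩ := h4.last (· = v₁) ⟨v₁, h2, rfl⟩
      obtain ⟨u, hu, huS⟩ := hsep a ha b hb _ (h6.append h8)
      simp only [List.mem_append, List.mem_singleton] at hu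
      rcases hu with (hu | rfl) | hu
      · have : l₁ <+: P i := by
          have h9 : l₁ ++ [v₂] <+: P i ++ [t i] := by rw [e]; simp
          rcases List.prefix_concat_iff.1 h9 with h10 | h10
          · rw [List.append_inj_left' h10 rfl]
          · exact (List.prefix_append _ _).trans h10
        exact hP3 i u (this.subset hu) (by simp [huS])
      · exact hvS huS
      · have : m₂ <:+ Q j := by
          have h9 : v₂ :: m₂ <:+ t' j :: Q j := by rw [e']; simp
          rcases List.suffix_cons_iff.1 h9 with h10 | h10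
          · rw [(List.cons.inj h10).2]
          · exact (List.suffix_cons _ _).trans h10
        exact hQ3 j u (this.subset hu) (by simp [huS])
    refine ⟨hvS, ?_, ?_⟩
    · rcases List.mem_append.1 h1 with h | h
      · exact (hP3 i v h (by simp [hvS])).elim
      · simpa using h
    · rcases List.mem_cons.1 h2 with h | h
      · exact h
      · exact (hQ3 j v h (by simp [hvS])).elim
  have hc : ∀ i, ∃ l, (∃ a ∈ A, ∃ b ∈ B, Wk (fun u v => (u, v) ∈ E) a b l) ∧
      ∀ v ∈ l, v ∈ P i ++ [t i] ∨ v ∈ t' (σ i) :: Q (σ i) := fun i => by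
    obtain ⟨a, ha, h3⟩ := hP1 i
    obtain ⟨b, hb, h4⟩ := hQ1 (σ i)
    rcases hσ i with ⟨e1, e2⟩ | ⟨-, e2⟩
    · exact ⟨_, ⟨a, ha, b, hb, (up h3).append' (by rw [e1, e2]; exact hxy) (up h4)⟩,
        fun v hv => List.mem_append.1 hv⟩
    · rw [e2] at h4
      refine ⟨_, ⟨a, ha, b, hb, (up h3).append (up h4)⟩, fun v hv => ?_⟩
      rcases List.mem_append.1 hv with h | h
      · exact Or.inl h
      · exact Or.inr (List.mem_cons_of_mem _ h)
  choose c hc1 hc2 using hc
  have hx : ∀ i j v, v ∈ P i ++ [t i] → v ∈ t' (σ j) :: Q (σ j) → i = j := by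
    intro i j v h1 h2
    obtain ⟨h3, h4, h5⟩ := hmeet _ _ _ h1 h2
    rcases hσ j with ⟨-, e2⟩ | ⟨-, e2⟩
    · exact (hyS (by rw [← e2, ← h5]; exact h3)).elim
    · exact tinj (by rw [← h4, h5, e2])
  refine ⟨c, hc1, fun i j v hi hj => ?_⟩
  rcases hc2 i v hi with h1 | h1 <;> rcases hc2 j v hj with h2 | h2
  · exact hp2 i j v (hP4 i v h1) (hP4 j v h2)
  · exact hx i j v h1 h2
  · exact (hx j i v h2 h1).symm
  · have e := hq2 _ _ v (hQ4 _ v h1) (hQ4 _ v h2)
    rcases hσ i with ⟨e1, e2⟩ | ⟨e1, e2⟩ <;> rcases hσ j with ⟨e3, e4⟩ | ⟨e3, e4⟩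
    · exact tinj (e1.trans e3.symm)
    · exact (hyS (by rw [← e2, e, e4]; exact e3)).elim
    · exact (hyS (by rw [← e4, ← e, e2]; exact e1)).elim
    · exact tinj (by rw [← e2, e, e4])

/-- Menger's theorem for a loopless relation on a finite type, outside a deleted set `R`.  If no
set of fewer than `s` vertices meets all walks from `A` to `B` that avoid `R`, there are `s`
disjoint paths from `A` to `B` that avoid `R` and meet `B` only at their ends. -/
theorem menger [Fintype V] {r : V → V → Prop} (hr : ∀ x, ¬r x x) (R A B : V → Prop) (s : ℕ)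
    (h : ∀ S : Finset V, S.card < s →
      ∃ a b l, A a ∧ B b ∧ Wk r a b l ∧ ∀ v ∈ l, v ∉ S ∧ ¬R v) :
    ∃ (a b : Fin s → V) (p : Fin s → List V), (∀ i, A (a i) ∧ B (b i) ∧
      Wk r (a i) (b i) (p i ++ [b i]) ∧ (p i ++ [b i]).Nodup ∧ (∀ v ∈ p i, ¬B v) ∧
      ∀ v ∈ p i ++ [b i], ¬R v) ∧
      ∀ i j, ∀ v ∈ p i ++ [b i], v ∈ p j ++ [b j] → i = j := by
  classical
  obtain ⟨p, h1, h2⟩ := menger_aux (Finset.univ.filter fun e : V × V => r e.1 e.2 ∧ ¬R e.2)
    (fun e he h0 => hr e.2 (by have := (Finset.mem_filter.1 he).2.1; rwa [h0] at this))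
    (Finset.univ.filter fun v => A v ∧ ¬R v) (Finset.univ.filter B) s fun S hS => by
      obtain ⟨a, b, l, ha, hb, h1, h2⟩ := h S hS
      exact ⟨a, by simp [ha, (h2 a h1.start_mem).2], b, by simp [hb], l,
        h1.mono fun u _ v hv huv => by simp [huv, (h2 v hv).2], fun v hv => (h2 v hv).1⟩
  have : ∀ i, ∃ a b l, (A a ∧ B b ∧ Wk r a b (l ++ [b]) ∧ (l ++ [b]).Nodup ∧ (∀ v ∈ l, ¬B v) ∧
      ∀ v ∈ l ++ [b], ¬R v) ∧ ∀ v ∈ l ++ [b], v ∈ p i := fun i => by
    obtain ⟨a, ha, b, hb, h3⟩ := h1 i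
    simp only [Finset.mem_filter, Finset.mem_univ, true_and] at ha hb h3
    have h4 : ∀ v ∈ p i, ¬R v := by
      have ha2 := ha.2
      generalize p i = l at h3
      clear ha hb
      induction h3 with
      | one x => simpa using ha2
      | cons h5 _ ih => simpa using ⟨ha2, ih h5.2⟩
    obtain ⟨l, h5, h6, h7⟩ := h3.exists_nodup
    obtain ⟨v, l₁, l₂, rfl, h8, h9, h10, -⟩ := h5.first B ⟨b, h5.end_mem, hb⟩
    have h11 : ∀ u ∈ l₁ ++ [v], u ∈ p i := fun u hu => h7 (by
      simp only [List.mem_append, List.mem_cons, List.not_mem_nil, or_false] at hu ⊢; tauto)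
    exact ⟨a, v, l₁, ⟨ha.1, h8, h10.mono fun _ _ _ _ h => h.1, h6.sublist (by simp), h9,
      fun u hu => h4 u (h11 u hu)⟩, h11⟩
  choose a b q h3 h4 using this
  exact ⟨a, b, q, h3, fun i j v hi hj => h2 i j v (h4 i v hi) (h4 j v hj)⟩

end Pool.Agent.Lib.Menger
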