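import Mathlib
import Pool.Agent.Lib.Menger.Basic

/-!
# Cycles as lists, rerouting, and insertion of a vertex along a fan
-/

set_option autoImplicit false

namespace Pool.Agent.Lib.Menger


variable {V : Type} {G : SimpleGraph V}

/-- A walk with at least one edge from `x` to `y` with inner vertices `M`. -/
def Seg (G : SimpleGraph V) (x : V) (M : List V) (y : V) : Prop :=
  (x :: (M ++ [y])).IsChain G.Adj

theorem seg_nil {x y : V} : Seg G x [] y ↔ G.Adj x y := by simp [Seg]

theorem seg_cons {x v y : V} {N : List V} : Seg G x (v :: N) y ↔ G.Adj x v ∧ Seg G v N y := by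
  simp [Seg]

theorem seg_split {x v y : V} {M N : List V} :
    Seg G x (M ++ v :: N) y ↔ Seg G x M v ∧ Seg G v N y := by
  induction M generalizing x with
  | nil => simp [seg_cons, seg_nil]
  | cons a M ih => simp [seg_cons, ih, and_assoc]

theorem Seg.rev {x y : V} {M : List V} (h : Seg G x M y) : Seg G y M.reverse x := by
  induction M generalizing x with
  | nil => exact seg_nil.2 (seg_nil.1 h).symm
  | cons a M ih =>
    rw [List.reverse_cons, seg_split, seg_nil]
    exact ⟨ih (seg_cons.1 h).2, (seg_cons.1 h).1.symm⟩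

theorem seg_rev {x y : V} {M : List V} : Seg G y M.reverse x ↔ Seg G x M y :=
  ⟨fun h => by simpa using h.rev, Seg.rev⟩

theorem Seg.wk {x y : V} {M : List V} (h : Seg G x M y) : Wk G.Adj x y (x :: (M ++ [y])) :=
  Wk.of_isChain h

theorem Seg.of_wk {x y : V} {M : List V} (h : Wk G.Adj x y (x :: (M ++ [y]))) : Seg G x M y :=
  h.isChain

theorem Seg.of_adj_wk {v u z : V} {N : List V} (h : G.Adj v u) (h' : Wk G.Adj u z (N ++ [z])) :
    Seg G v N z := (Wk.cons h h').isChain

theorem Seg.tail {x y : V} {M : List V} (h : Seg G x M y) :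
    ∃ u, G.Adj x u ∧ Wk G.Adj u y (M ++ [y]) := by
  cases M with
  | nil => exact ⟨y, seg_nil.1 h, Wk.one y⟩
  | cons a M => exact ⟨a, (seg_cons.1 h).1, (seg_cons.1 h).2.wk⟩

theorem wk_symm {x y : V} {l : List V} (h : Wk G.Adj x y l) : Wk G.Adj y x l.reverse :=
  h.reverse.mono fun _ _ _ _ h => h.symm

theorem wk_seg {x y : V} {l : List V} (h : Wk G.Adj x y l) (hxy : x ≠ y) :
    ∃ M, l = x :: (M ++ [y]) ∧ Seg G x M y := by
  cases h with
  | one => exact (hxy rfl).elim
  | cons h1 h2 =>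
    obtain ⟨t, rfl⟩ := h2.eq_concat
    exact ⟨t, rfl, Seg.of_adj_wk h1 h2⟩

/-- A cycle, as the list of its vertices in cyclic order. -/
def Cyc (G : SimpleGraph V) (C : List V) : Prop :=
  C.Nodup ∧ 3 ≤ C.length ∧ ∃ x M, C = x :: M ∧ Seg G x M x

theorem cyc_cons {x : V} {M : List V} :
    Cyc G (x :: M) ↔ (x :: M).Nodup ∧ 2 ≤ M.length ∧ Seg G x M x := by
  refine ⟨fun ⟨h1, h2, y, N, e, h3⟩ => ?_, fun ⟨h1, h2, h3⟩ => ⟨h1, by simpa using h2, x, M, rfl, h3⟩⟩
  obtain ⟨rfl, rfl⟩ := List.cons.inj e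
  exact ⟨h1, by simpa using h2, h3⟩

theorem Cyc.rot {P Q : List V} (h : Cyc G (P ++ Q)) : Cyc G (Q ++ P) := by
  rcases P with _ | ⟨x, P⟩
  · simpa using h
  rcases Q with _ | ⟨y, Q⟩
  · simpa using h
  have h1 := List.perm_append_comm.nodup_iff.1 h.1
  have h2 := h.2.1
  rw [List.cons_append, cyc_cons, seg_split] at h
  rw [List.cons_append] at h1 ⊢
  rw [cyc_cons, seg_split]
  refine ⟨h1, ?_, h.2.2.2, h.2.2.1⟩
  simp only [List.length_append, List.length_cons] at h2 ⊢
  omega

theorem Cyc.rev {x : V} {M : List V} (h : Cyc G (x :: M)) : Cyc G (x :: M.reverse) := by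
  rw [cyc_cons] at h ⊢
  exact ⟨((List.reverse_perm M).cons x).nodup_iff.2 h.1, by simpa using h.2.1, h.2.2.rev⟩

theorem Cyc.exists_rot {C : List V} (h : Cyc G C) {x : V} (hx : x ∈ C) :
    ∃ M, Cyc G (x :: M) ∧ C.Perm (x :: M) := by
  obtain ⟨P, Q, rfl⟩ := List.append_of_mem hx
  exact ⟨Q ++ P, h.rot, List.perm_append_comm⟩

theorem Cyc.reroute {z z' : V} {M Q N : List V} (h : Cyc G (z :: (M ++ z' :: Q)))
    (hN : Seg G z N z') (h0 : N ≠ []) (h1 : N.Nodup) (h2 : ∀ x ∈ N, x ∉ z :: z' :: Q) :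
    Cyc G (z :: (N ++ z' :: Q)) := by
  rw [cyc_cons, seg_split] at h ⊢
  refine ⟨?_, ?_, hN, h.2.2.2⟩
  · have h3 : (z :: z' :: Q).Nodup := h.1.sublist (by simp)
    have : (N ++ z :: z' :: Q).Nodup :=
      List.nodup_append.2 ⟨h1, h3, fun a ha b hb e => h2 a ha (e ▸ hb)⟩
    exact List.perm_middle.nodup_iff.1 this
  · have := List.length_pos_iff.2 h0
    simp only [List.length_append, List.length_cons]
    omega

theorem exists_first {l : List V} (P : V → Prop) (hP : ∃ v ∈ l, P v) :
    ∃ l₁ v l₂, l = l₁ ++ v :: l₂ ∧ P v ∧ ∀ u ∈ l₁, ¬P u := by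
  induction l with
  | nil => simp at hP
  | cons a l ih =>
    by_cases ha : P a
    · exact ⟨[], a, l, rfl, ha, by simp⟩
    · obtain ⟨l₁, v, l₂, rfl, h1, h2⟩ := ih (by simpa [ha] using hP)
      exact ⟨a :: l₁, v, l₂, rfl, h1, by simpa [ha] using h2⟩

theorem exists_last {l : List V} (P : V → Prop) (hP : ∃ v ∈ l, P v) :
    ∃ l₁ v l₂, l = l₁ ++ v :: l₂ ∧ P v ∧ ∀ u ∈ l₂, ¬P u := by
  obtain ⟨l₁, v, l₂, e, h1, h2⟩ := exists_first (l := l.reverse) P (by simpa using hP)
  exact ⟨l₂.reverse, v, l₁.reverse, by rw [← l.reverse_reverse, e]; simp, h1, by simpa using h2⟩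

section Weight

variable {w : V → ℤ}

theorem Seg.weight_nonneg (hw : ∀ x y, G.Adj x y → 0 ≤ w x + w y) {x y : V} {M : List V}
    (h : Seg G x M y) : 0 ≤ w x + 2 * (M.map w).sum + w y := by
  induction M generalizing x with
  | nil => simpa using hw x y (seg_nil.1 h)
  | cons a M ih =>
    have h1 := hw _ _ (seg_cons.1 h).1
    have h2 := ih (seg_cons.1 h).2
    simp only [List.map_cons, List.sum_cons]
    linarith

theorem Seg.weight_le (hw : ∀ x y, G.Adj x y → w x + w y ≤ 1) {x y : V} {M : List V}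
    (h : Seg G x M y) : w x + 2 * (M.map w).sum + w y ≤ M.length + 1 := by
  induction M generalizing x with
  | nil => simpa using hw x y (seg_nil.1 h)
  | cons a M ih =>
    have h1 := hw _ _ (seg_cons.1 h).1
    have h2 := ih (seg_cons.1 h).2
    simp only [List.map_cons, List.sum_cons, List.length_cons]
    push_cast
    linarith

theorem Cyc.weight_le (hw : ∀ x y, G.Adj x y → w x + w y ≤ 1) {C : List V} (h : Cyc G C) :
    2 * (C.map w).sum ≤ C.length := by
  obtain ⟨-, -, x, M, rfl, h⟩ := h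
  have := h.weight_le hw
  simp only [List.map_cons, List.sum_cons, List.length_cons]
  push_cast
  linarith

theorem weight_first (hw : ∀ x y, G.Adj x y → 0 ≤ w x + w y) {v u z : V} {N : List V}
    (h1 : 1 ≤ w v + w u) (h : Wk G.Adj u z (N ++ [z])) :
    1 ≤ w v + 2 * (N.map w).sum + w z := by
  cases N with
  | nil => obtain rfl := h.head_eq; simpa using h1
  | cons a N =>
    obtain rfl := h.head_eq
    have := (Seg.of_wk h).weight_nonneg hw
    simp only [List.map_cons, List.sum_cons]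
    linarith

theorem arcs_aux (E : V → Prop) [DecidablePred E] (e' : V) (he' : E e') :
    ∀ (n : ℕ) (R : List V) (e : V), R.length ≤ n → E e →
      w e + 2 * (R.map w).sum + w e' < 2 * ((R.countP E : ℤ) + 1) →
      ∃ P z M z' Q, e :: (R ++ [e']) = P ++ z :: (M ++ z' :: Q) ∧ E z ∧ E z' ∧
        (∀ x ∈ M, ¬E x) ∧ w z + 2 * (M.map w).sum + w z' ≤ 1 := by
  intro n
  induction n with
  | zero =>
    intro R e hR he h
    obtain rfl : R = [] := List.length_eq_zero_iff.1 (by omega)
    exact ⟨[], e, [], e', [], rfl, he, he', by simp, by simp at h ⊢; omega⟩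
  | succ n ih =>
    intro R e hR he h
    by_cases hE : ∃ v ∈ R, E v
    · obtain ⟨M, v, R', rfl, h1, h2⟩ := exists_first E hE
      by_cases h3 : w e + 2 * (M.map w).sum + w v ≤ 1
      · exact ⟨[], e, M, v, R' ++ [e'], by simp, he, h1, h2, h3⟩
      · have h4 : M.countP E = 0 := List.countP_eq_zero.2 (by simpa using h2)
        obtain ⟨P, z, M', z', Q, h5, h6⟩ := ih R' v (by simp at hR; omega) h1 (by
          simp only [List.map_append, List.map_cons, List.sum_append, List.sum_cons,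
            List.countP_append, h4, List.countP_cons_of_pos (p := fun x => decide (E x))
              (by simpa using h1)] at h
          push_cast at h
          omega)
        exact ⟨e :: M ++ P, z, M', z', Q, by simp [← h5], h6⟩
    · have h4 : R.countP E = 0 := List.countP_eq_zero.2 (by simpa using hE)
      exact ⟨[], e, R, e', [], rfl, he, he', by simpa using hE, by rw [h4] at h; omega⟩

theorem Cyc.exists_arc [DecidableEq V] {C : List V} (hC : Cyc G C) (E : Finset V)
    (hE : ∀ x ∈ E, x ∈ C) (h2 : 2 ≤ E.card) (h : (C.map w).sum < E.card) :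
    ∃ z M z' Q, Cyc G (z :: (M ++ z' :: Q)) ∧ C.Perm (z :: (M ++ z' :: Q)) ∧ z ∈ E ∧ z' ∈ E ∧
      w z + 2 * (M.map w).sum + w z' ≤ 1 := by
  obtain ⟨e, he⟩ : E.Nonempty := Finset.card_pos.1 (by omega)
  obtain ⟨R, h3, h4⟩ := hC.exists_rot (hE e he)
  have h5 : R.countP (· ∈ E) + 1 = E.card := by
    have : (e :: R).countP (· ∈ E) = E.card := by
      rw [List.countP_eq_length_filter, ← List.toFinset_card_of_nodup (h3.1.filter _)]
      congr 1
      ext x
      simp only [List.toFinset_filter, Finset.mem_filter, List.mem_toFinset, decide_eq_true_eq]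
      exact ⟨fun h => h.2, fun h => ⟨h4.subset (hE x h), h⟩⟩
    rwa [List.countP_cons_of_pos (by simpa using he)] at this
  obtain ⟨P, z, M, z', Q, h6, h7, h8, h9, h10⟩ := arcs_aux (w := w) (· ∈ E) e he _ R e le_rfl he (by
    rw [(h4.map w).sum_eq] at h
    simp only [List.map_cons, List.sum_cons] at h
    have : ((R.countP (· ∈ E) : ℤ) + 1) = E.card := by exact_mod_cast h5
    rw [this]
    linarith)
  rcases Q.eq_nil_or_concat with rfl | ⟨Q, y, rfl⟩
  · have h11 : e :: R = P ++ z :: M ∧ e = z' := by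
      have : (e :: R) ++ [e] = (P ++ z :: M) ++ [z'] := by simpa using h6
      exact ⟨List.append_inj_left' this rfl, by simpa using List.append_inj_right' this rfl⟩
    obtain ⟨h11, rfl⟩ := h11
    rcases P with _ | ⟨p, P⟩
    · obtain ⟨rfl, rfl⟩ := List.cons.inj h11
      have : R.countP (· ∈ E) = 0 := List.countP_eq_zero.2 (by simpa using h9)
      omega
    · obtain ⟨rfl, rfl⟩ := List.cons.inj h11
      have h12 := Cyc.rot (P := e :: P) (Q := z :: M) h3
      exact ⟨z, M, e, P, h12, h4.trans (List.perm_append_comm (l₁ := e :: P) (l₂ := z :: M)),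
        h7, h8, h10⟩
  · have h11 : e :: R = P ++ z :: (M ++ z' :: Q) := by
      have : (e :: R) ++ [e] = (P ++ z :: (M ++ z' :: Q)) ++ [y] := by simpa using h6
      exact List.append_inj_left' this rfl
    rw [h11] at h3 h4
    exact ⟨z, M, z', Q ++ P, by simpa using h3.rot,
      h4.trans (by simpa using List.perm_append_comm (l₁ := P) (l₂ := z :: (M ++ z' :: Q))),
      h7, h8, h10⟩

/-- Insertion of a vertex into a cycle along a fan whose first edges have positive weight. -/
theorem Cyc.step [Fintype V] [DecidableEq V] (hw : ∀ x y, G.Adj x y → 0 ≤ w x + w y)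
    {C : List V} (hC : Cyc G C) {R : Finset V} {v : V} (hv : v ∈ R) (hCR : ∀ x ∈ C, x ∉ R)
    {f : ℕ} (hf : 2 ≤ f) (hφ : (C.map w).sum < f)
    (h : ∀ S : Finset V, S.card < f → ∃ u z l, (G.Adj v u ∧ 1 ≤ w v + w u) ∧ z ∈ C ∧
      Wk G.Adj u z l ∧ ∀ x ∈ l, x ∉ S ∧ x ∉ R) :
    ∃ C', Cyc G C' ∧ (∀ x ∈ C', x ∉ R.erase v) ∧ (C.map w).sum < (C'.map w).sum := by
  obtain ⟨a, b, p, h1, h2⟩ := menger (r := G.Adj) (fun x => G.irrefl) (· ∈ R)
    (fun u => G.Adj v u ∧ 1 ≤ w v + w u) (· ∈ C) f h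
  have hb : Function.Injective b := fun i j e => h2 i j (b i) (by simp) (by simp [e])
  obtain ⟨z, M, z', Q, h3, h4, h5, h6, h7⟩ := hC.exists_arc (w := w) (Finset.univ.image b)
    (fun x hx => by obtain ⟨i, -, rfl⟩ := Finset.mem_image.1 hx; exact (h1 i).2.1)
    (by rw [Finset.card_image_of_injective _ hb]; simpa using hf)
    (by rw [Finset.card_image_of_injective _ hb]; simpa using hφ)
  obtain ⟨i, -, rfl⟩ := Finset.mem_image.1 h5
  obtain ⟨j, -, rfl⟩ := Finset.mem_image.1 h6
  have hij : i ≠ j := by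
    rintro rfl
    have := h3.1
    simp at this
  obtain ⟨⟨a1, a2⟩, -, a4, a5, a6, a7⟩ := h1 i
  obtain ⟨⟨b1, b2⟩, -, b4, b5, b6, b7⟩ := h1 j
  have hsub : ∀ x ∈ b i :: b j :: Q, x ∈ C := fun x hx => h4.symm.subset (by
    simp only [List.mem_cons, List.mem_append] at hx ⊢; tauto)
  refine ⟨b i :: (((p i).reverse ++ v :: p j) ++ b j :: Q), h3.reroute ?_ (by simp) ?_ ?_, ?_, ?_⟩
  · exact seg_split.2 ⟨(Seg.of_adj_wk a1 a4).rev, Seg.of_adj_wk b1 b4⟩
  · refine List.nodup_append.2 ⟨List.nodup_reverse.2 (a5.sublist (by simp)),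
      List.nodup_cons.2 ⟨fun h => b7 v (by simp [h]) hv, b5.sublist (by simp)⟩, ?_⟩
    rintro x hx _ hy rfl
    rw [List.mem_reverse] at hx
    rcases List.mem_cons.1 hy with rfl | hy
    · exact a7 x (by simp [hx]) hv
    · exact hij (h2 i j x (by simp [hx]) (by simp [hy]))
  · intro x hx hx'
    simp only [List.mem_append, List.mem_reverse, List.mem_cons] at hx
    rcases hx with hx | rfl | hx
    · exact a6 x hx (hsub x hx')
    · exact hCR x (hsub x hx') hv
    · exact b6 x hx (hsub x hx')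
  · intro x hx hx'
    obtain ⟨h8, h9⟩ := Finset.mem_erase.1 hx'
    simp only [List.mem_append, List.mem_reverse, List.mem_cons] at hx
    rcases hx with rfl | (hx | rfl | hx) | hx
    · exact a7 _ (by simp) h9
    · exact a7 x (by simp [hx]) h9
    · exact h8 rfl
    · exact b7 x (by simp [hx]) h9
    · exact hCR x (hsub x (by simp [hx])) h9
  · have c1 := weight_first hw a2 a4
    have c2 := weight_first hw b2 b4
    rw [(h4.map w).sum_eq]
    simp only [List.map_cons, List.map_append, List.sum_cons, List.sum_append, List.map_reverse,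
      List.sum_reverse]
    omega

end Weight

end Pool.Agent.Lib.Menger
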